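import Pool.Agent.Lib_helper74.Hit.Main

/-!
The hit problem: asymptotic determination of the dimension of `(Q P_d)_n`, uniformly in `n`,
as the number `d` of variables tends to infinity.
-/

namespace Pool.Agent.Results.MP_2ba379_gt.DimAsymptotics

open Pool.Agent.Lib_helper74.Hit

/-- For every `ε > 0` there is `D` such that for all `d ≥ D` and all `n ≥ 0`
`|dim (Q P_d)_n - φ(n / (n + d)) C(n + d - 1, n)| ≤ ε C(n + d - 1, n)`, where
`φ(x) = ∏_{i ≥ 1} (1 - x ^ (2 ^ i - 1))`. -/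
theorem result : ∀ ε : ℝ, 0 < ε → ∃ D : ℕ, ∀ d : ℕ, D ≤ d → ∀ n : ℕ,
    |(qd (Fin d) n : ℝ) -
        (∏' i : ℕ, (1 - ((n : ℝ) / ((n : ℝ) + (d : ℝ))) ^ (2 ^ (i + 1) - 1))) *
          ((n + d - 1).choose n : ℝ)| ≤ ε * ((n + d - 1).choose n : ℝ) := by
  intro ε hε
  exact main ε hε

end Pool.Agent.Results.MP_2ba379_gt.DimAsymptotics
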