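import Pool.Agent.HGX.Final

/-!
The hit problem: the modules `(Q P_d)_n` over the linear group for all `d` and `n`, up to an explicit
finite range of degrees for every `d`: explicit isomorphisms with sums of modules induced from the
parabolic subgroups, and the formula for the dimension.
-/

namespace Pool.Agent.Results.MP_2ba379_gt.GapSplittingExplicit

open Pool.Agent.Lib_helper74.Hit HGP HGX

/-- Let `s_c` be the number of binary digits of `|c|` and `S = 4 ^ (d + 1) * (2 * s_c + d + 3)`.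
(i) For all `C ≥ S`, `s ≥ s_c + d` and `n = 2 ^ (C + s) * q - c` the dimension of `(Q P_d)_n` is the sum
over `m ≤ d` of the number of the `m`-dimensional subspaces times
`dim (Q P_{d-m})_{2 ^ C q - (d - m)} * dim (Q P_m)_{(d - m) - c}`, and the explicit map `Te s` induces an
isomorphism of modules over the linear group from `(Q P_d)_n` to the sum of the modules induced
from `(Q P_{d-m})_{2 ^ C q - (d - m)} ⊗ (Q P_m)_{(d - m) - c}`.
(ii) Every `n` with `(Q P_d)_n ≠ 0` is `2 ^ t * q - c` with `|c| < 2 ^ K` and `S + s_c + d < t ≤ K`,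
where `K = 4 ^ ((d + 3) ^ 2)`. -/
theorem result :
    (∀ (d : ℕ) (c : ℤ) (s C : ℕ), sz c + d ≤ s → SS d c ≤ C → ∀ q : ℤ,
      qz d (2 ^ (C + s) * q - c) = ∑ m ∈ Finset.range (d + 1), nsub d m *
        (qz (d - m) (2 ^ C * q - ((d - m : ℕ) : ℤ)) * qz m (((d - m : ℕ) : ℤ) - c)) ∧
      ∃ e : Src d c s C q ≃ Tgt d c C q, Adds e ∧ Commutes e ∧ ByTe e) ∧
    ∀ d n : ℕ, qd (Fin d) n ≠ 0 → ∃ (c q : ℤ) (t : ℕ),
      |c| < 2 ^ 4 ^ ((d + 3) ^ 2) ∧ SS d c + (sz c + d) < t ∧ t ≤ 4 ^ ((d + 3) ^ 2) ∧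
        (n : ℤ) = 2 ^ t * q - c :=
  ⟨fun d c s C hs hC q => ⟨formula d c s C hs hC q, isoF d c s C hs hC q⟩, cover⟩

end Pool.Agent.Results.MP_2ba379_gt.GapSplittingExplicit
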