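import Pool.Agent.Lib_helper74.Hit.Stab

/-!
The hit problem: the dimension of `(Q P_j^+)_{j+k}` for all `j` and all `k ≤ (j + 1) / 2`, where
`P_j^+` consists of the polynomials divisible by all `j` variables.
-/

namespace Pool.Agent.Results.MP_2ba379_gt.StableRange

open Pool.Agent.Lib_helper74.Hit

/-- For `2 k ≤ j + 1` the dimension of `(Q P_j^+)_{j+k}` is the coefficient of `X ^ k` in
`(1 - X) ^ (-j) * ∏_{i ≥ 1} (1 - X ^ (2 ^ i - 1))`; here `(1 - X) ^ (-j)` is written as
`∑ C(m + j - 1, m) X ^ m`, and the factors with `i > k + 1` do not affect the coefficient. -/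
theorem result : ∀ j k : ℕ, 2 * k ≤ j + 1 → (qplus j (j + k) : ℤ) =
    PowerSeries.coeff k (PowerSeries.mk (fun m => ((m + j - 1).choose m : ℤ)) *
      ∏ i ∈ Finset.range (k + 1), (1 - PowerSeries.X ^ (2 ^ (i + 1) - 1))) := by
  intro j k hk
  exact stable j k hk

end Pool.Agent.Results.MP_2ba379_gt.StableRange
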