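import Pool.Agent.HB.Main

/-!
The hit problem: an upper bound for the dimension of `(Q P_d)_n` for all `d` and `n`, whose
exponent `d ^ 2 / 2 + O(d log d)` is sharp up to the error term.
-/

namespace Pool.Agent.Results.MP_2ba379_gt.UpperBound

open Pool.Agent.Lib_helper74.Hit

/-- For all `d` and `n`: `dim (Q P_d)_n ≤ 2 ^ (d (d + 1) / 2) * (5 (d + 1) ^ 2) ^ d`. -/
theorem result : ∀ d n : ℕ, qd (Fin d) n ≤ 2 ^ (d * (d + 1) / 2) * (5 * (d + 1) ^ 2) ^ d :=
  HB.main

end Pool.Agent.Results.MP_2ba379_gt.UpperBound
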